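import Pool.Agent.D0H44.DM.Stm
import Pool.Agent.D0H9.DM.Gen

/-!
Module EQV of the project DM: the question is equivalent to its discrete form.
-/

set_option autoImplicit false

namespace Pool.Agent.D0H9.DM

open MeasureTheory Set Filter
open Pool.Agent.D0H44.DM

theorem q_int (q : ℝ → ℝ) (hq : ∀ T : ℝ, 0 ≤ T → IntervalIntegrable q volume 0 T) (u v : ℝ)
    (hu : 0 ≤ u) (huv : u ≤ v) : IntervalIntegrable q volume u v := by
  apply (hq v (hu.trans huv)).mono_set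
  rw [uIcc_of_le huv, uIcc_of_le (hu.trans huv)]
  exact Icc_subset_Icc hu le_rfl

theorem q_big (q : ℝ → ℝ) (hq : ∀ T : ℝ, 0 ≤ T → IntervalIntegrable q volume 0 T) (C ε : ℝ)
    (hε : 0 < ε) (hC : ∀ t : ℝ, 1 ≤ t → |q t| ≤ C * t ^ ε) (u T : ℝ) (hu : 1 ≤ u) (huT : u ≤ T) :
    ∫ t in u..T, |q t| ≤ (T - u) * (|C| * T ^ ε) := by
  have h1 : ∫ t in u..T, |q t| ≤ ∫ t in u..T, |C| * T ^ ε := by
    apply intervalIntegral.integral_mono_on huT (q_int q hq u T (by linarith) huT).abs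
      intervalIntegrable_const
    intro t ht
    have ht1 : 1 ≤ t := hu.trans ht.1
    calc |q t| ≤ C * t ^ ε := hC t ht1
      _ ≤ |C| * t ^ ε := mul_le_mul_of_nonneg_right (le_abs_self _) (by positivity)
      _ ≤ |C| * T ^ ε := mul_le_mul_of_nonneg_left
          (Real.rpow_le_rpow (by linarith) ht.2 hε.le) (abs_nonneg _)
  rwa [intervalIntegral.integral_const, smul_eq_mul] at h1

theorem q_win (q : ℝ → ℝ) (hq : ∀ T : ℝ, 0 ≤ T → IntervalIntegrable q volume 0 T) (C ε : ℝ)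
    (hε : 0 < ε) (hC : ∀ t : ℝ, 1 ≤ t → |q t| ≤ C * t ^ ε) (u T L : ℝ) (hu : 0 ≤ u) (huT : u ≤ T)
    (hT : 1 ≤ T) (hL : T - u ≤ L) :
    |∫ t in u..T, q t| ≤ (∫ t in (0:ℝ)..1, |q t|) + L * (|C| * T ^ ε) := by
  have hB : 0 ≤ |C| * T ^ ε := by positivity
  have h0 : 0 ≤ ∫ t in (0:ℝ)..1, |q t| :=
    intervalIntegral.integral_nonneg (by norm_num) fun t _ => abs_nonneg _
  refine (intervalIntegral.abs_integral_le_integral_abs huT).trans ?_
  rcases le_or_gt u 1 with h1 | h1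
  · have e1 := intervalIntegral.integral_add_adjacent_intervals
      (q_int q hq u 1 hu h1).abs (q_int q hq 1 T (by norm_num) hT).abs
    have e2 : ∫ t in u..1, |q t| ≤ ∫ t in (0:ℝ)..1, |q t| := by
      apply intervalIntegral.integral_mono_interval hu h1 le_rfl
      · exact Eventually.of_forall fun t => abs_nonneg _
      · exact (hq 1 (by norm_num)).abs
    have e3 := q_big q hq C ε hε hC 1 T le_rfl hT
    have e4 : (T - 1) * (|C| * T ^ ε) ≤ L * (|C| * T ^ ε) :=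
      mul_le_mul_of_nonneg_right (by linarith) hB
    have e5 : ∫ t in u..T, |q t| = (∫ t in u..1, |q t|) + ∫ t in (1:ℝ)..T, |q t| := e1.symm
    rw [e5]
    linarith
  · have e3 := q_big q hq C ε hε hC u T h1.le huT
    have e4 : (T - u) * (|C| * T ^ ε) ≤ L * (|C| * T ^ ε) :=
      mul_le_mul_of_nonneg_right hL hB
    linarith

/-- Module EQV, for any function `q` in place of the polynomial in the logarithm. -/
theorem eqv_core (hGEN : S_GEN) (f q : ℝ → ℝ) (hf : Continuous f) (h0 : ∀ t, 0 ≤ f t)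
    (hM : Mom f 1) (hq : ∀ T : ℝ, 0 ≤ T → IntervalIntegrable q volume 0 T)
    (hb : ∀ ε : ℝ, 0 < ε → ∃ C : ℝ, ∀ t : ℝ, 1 ≤ t → |q t| ≤ C * t ^ ε) :
    (∀ ε : ℝ, 0 < ε → ∃ C : ℝ, ∀ T : ℝ, 1 ≤ T →
      |(∫ t in (0:ℝ)..T, f t) - ∫ t in (0:ℝ)..T, q t| ≤ C * T ^ (1 / 2 + ε)) ↔
    ∀ᵐ p : ℝ × ℝ, 0 < p.1 → ∀ ε : ℝ, 0 < ε → ∃ C : ℝ, ∀ N : ℕ, 1 ≤ N →
      |(∑ n ∈ Finset.Icc 1 N, f (p.1 * n + p.2)) - (∫ t in (0:ℝ)..(p.1 * N), q t) / p.1| ≤
        C * (N : ℝ) ^ (1 / 2 + ε) := by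
  have hgen := hGEN f 1 hf h0 (by norm_num) hM
  have hFadd : ∀ u v : ℝ, (∫ t in (0:ℝ)..v, f t) = (∫ t in (0:ℝ)..u, f t) + ∫ t in u..v, f t :=
    fun u v => (intervalIntegral.integral_add_adjacent_intervals (hf.intervalIntegrable _ _)
      (hf.intervalIntegrable _ _)).symm
  have hFpos : ∀ u v : ℝ, u ≤ v → 0 ≤ ∫ t in u..v, f t :=
    fun u v h => intervalIntegral.integral_nonneg h fun t _ => h0 t
  have hIadd : ∀ u v : ℝ, 0 ≤ u → u ≤ v →
      (∫ t in (0:ℝ)..v, q t) = (∫ t in (0:ℝ)..u, q t) + ∫ t in u..v, q t :=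
    fun u v hu huv => (intervalIntegral.integral_add_adjacent_intervals (hq u hu)
      (q_int q hq u v hu huv)).symm
  -- bounded ranges
  have hsmall : ∀ B : ℝ, ∀ T : ℝ, 0 ≤ T → T ≤ B →
      |(∫ t in (0:ℝ)..T, f t) - ∫ t in (0:ℝ)..T, q t| ≤
        (∫ t in (0:ℝ)..B, f t) + ∫ t in (0:ℝ)..B, |q t| := by
    intro B T hT hTB
    have e1 := hFadd T B
    have e2 := hFpos T B hTB
    have e3 := hFpos 0 T hT
    have e4 : |∫ t in (0:ℝ)..T, q t| ≤ ∫ t in (0:ℝ)..T, |q t| :=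
      intervalIntegral.abs_integral_le_integral_abs hT
    have e5 : ∫ t in (0:ℝ)..T, |q t| ≤ ∫ t in (0:ℝ)..B, |q t| := by
      apply intervalIntegral.integral_mono_interval le_rfl hT hTB
      · exact Eventually.of_forall fun t => abs_nonneg _
      · exact (hq B (hT.trans hTB)).abs
    have e6 := abs_le.1 (e4.trans e5)
    rw [abs_le]
    constructor <;> linarith [e6.1, e6.2]
  constructor
  · intro hcont
    filter_upwards [hgen] with p hp hp1 ε hε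
    obtain ⟨C, hC⟩ := hp hp1 ε hε
    obtain ⟨C', hC'⟩ := hcont ε hε
    obtain ⟨α, hα⟩ : ∃ α, α = p.1 := ⟨_, rfl⟩
    rw [← hα] at hp1 hC ⊢
    obtain ⟨E, hE⟩ : ∃ E : ℝ, E = 1 / 2 + ε := ⟨_, rfl⟩
    rw [← hE] at hC hC' ⊢
    have hE0 : 0 < E := by rw [hE]; linarith
    obtain ⟨D, hD⟩ : ∃ D, D = (∫ t in (0:ℝ)..1, f t) + ∫ t in (0:ℝ)..1, |q t| := ⟨_, rfl⟩
    have hD0 : 0 ≤ D := by
      rw [hD]
      exact add_nonneg (hFpos 0 1 (by norm_num))
        (intervalIntegral.integral_nonneg (by norm_num) fun t _ => abs_nonneg _)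
    refine ⟨C + (|C'| * α ^ E + D) / α, fun N hN => ?_⟩
    have hN1 : (1 : ℝ) ≤ N := by exact_mod_cast hN
    have hNE : (1 : ℝ) ≤ (N : ℝ) ^ E := Real.one_le_rpow hN1 hE0.le
    have h1 := hC N hN
    have hαN : 0 ≤ α * N := by positivity
    have h2 : |(∫ t in (0:ℝ)..(α * N), f t) - ∫ t in (0:ℝ)..(α * N), q t| ≤
        |C'| * (α * N) ^ E + D := by
      rcases le_or_gt 1 (α * N) with h3 | h3
      · calc |(∫ t in (0:ℝ)..(α * N), f t) - ∫ t in (0:ℝ)..(α * N), q t|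
            ≤ C' * (α * N) ^ E := hC' _ h3
          _ ≤ |C'| * (α * N) ^ E := mul_le_mul_of_nonneg_right (le_abs_self _) (by positivity)
          _ ≤ _ := by linarith
      · have h4 := hsmall 1 (α * N) hαN h3.le
        have h5 : 0 ≤ |C'| * (α * N) ^ E := by positivity
        rw [hD]
        linarith
    have h3 : |(∫ t in (0:ℝ)..(α * N), f t) / α - (∫ t in (0:ℝ)..(α * N), q t) / α| ≤
        (|C'| * α ^ E + D) / α * (N : ℝ) ^ E := by
      rw [← sub_div, abs_div, abs_of_pos hp1, div_le_iff₀ hp1]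
      calc |(∫ t in (0:ℝ)..(α * N), f t) - ∫ t in (0:ℝ)..(α * N), q t|
          ≤ |C'| * (α * N) ^ E + D := h2
        _ ≤ |C'| * (α ^ E * (N : ℝ) ^ E) + D * (N : ℝ) ^ E := by
            rw [Real.mul_rpow hp1.le (by linarith)]
            have : D ≤ D * (N : ℝ) ^ E := le_mul_of_one_le_right hD0 hNE
            linarith
        _ = _ := by field_simp
    calc |(∑ n ∈ Finset.Icc 1 N, f (α * n + p.2)) - (∫ t in (0:ℝ)..(α * N), q t) / α|
        ≤ |(∑ n ∈ Finset.Icc 1 N, f (α * n + p.2)) - (∫ t in (0:ℝ)..(α * N), f t) / α| +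
          |(∫ t in (0:ℝ)..(α * N), f t) / α - (∫ t in (0:ℝ)..(α * N), q t) / α| :=
          abs_sub_le _ _ _
      _ ≤ C * (N : ℝ) ^ E + (|C'| * α ^ E + D) / α * (N : ℝ) ^ E := add_le_add h1 h3
      _ = _ := by ring
  · intro hae ε hε
    -- one good pair
    obtain ⟨p, hp1, hpg, hpq⟩ : ∃ p : ℝ × ℝ, 0 < p.1 ∧
        (∀ ε : ℝ, 0 < ε → ∃ C : ℝ, ∀ N : ℕ, 1 ≤ N →
          |(∑ n ∈ Finset.Icc 1 N, f (p.1 * n + p.2)) - (∫ t in (0:ℝ)..(p.1 * N), f t) / p.1| ≤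
            C * (N : ℝ) ^ ((1:ℝ) / 2 + ε)) ∧
        (∀ ε : ℝ, 0 < ε → ∃ C : ℝ, ∀ N : ℕ, 1 ≤ N →
          |(∑ n ∈ Finset.Icc 1 N, f (p.1 * n + p.2)) - (∫ t in (0:ℝ)..(p.1 * N), q t) / p.1| ≤
            C * (N : ℝ) ^ ((1:ℝ) / 2 + ε)) := by
      by_contra hcon
      have hopen : IsOpen {p : ℝ × ℝ | 0 < p.1} := isOpen_lt continuous_const continuous_fst
      have hne : volume {p : ℝ × ℝ | 0 < p.1} ≠ 0 :=
        hopen.measure_ne_zero volume ⟨(1, 0), by simp⟩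
      apply hne
      have h1 : ∀ᵐ p : ℝ × ℝ, ¬ 0 < p.1 := by
        filter_upwards [hgen, hae] with p h2 h3 h4
        exact hcon ⟨p, h4, h2 h4, h3 h4⟩
      rw [ae_iff] at h1
      simpa using h1
    obtain ⟨C1, hC1⟩ := hpg ε hε
    obtain ⟨C2, hC2⟩ := hpq ε hε
    obtain ⟨C3, hC3⟩ := hM (2 * ε) (by linarith)
    obtain ⟨C4, hC4⟩ := hb ε hε
    obtain ⟨α, hα⟩ : ∃ α, α = p.1 := ⟨_, rfl⟩
    rw [← hα] at hp1 hC1 hC2
    obtain ⟨E, hE⟩ : ∃ E : ℝ, E = 1 / 2 + ε := ⟨_, rfl⟩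
    rw [← hE] at hC1 hC2 ⊢
    have hE0 : 0 < E := by rw [hE]; linarith
    obtain ⟨D0, hD0⟩ : ∃ D, D = (∫ t in (0:ℝ)..α, f t) + ∫ t in (0:ℝ)..α, |q t| := ⟨_, rfl⟩
    have hD00 : 0 ≤ D0 := by
      rw [hD0]
      exact add_nonneg (hFpos 0 α hp1.le)
        (intervalIntegral.integral_nonneg hp1.le fun t _ => abs_nonneg _)
    obtain ⟨D1, hD1⟩ : ∃ D, D = ∫ t in (0:ℝ)..1, |q t| := ⟨_, rfl⟩
    have hD10 : 0 ≤ D1 := by
      rw [hD1]
      exact intervalIntegral.integral_nonneg (by norm_num) fun t _ => abs_nonneg _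
    refine ⟨D0 + α * (|C1| + |C2|) * (1 / α) ^ E + (|C3| / 2 + α / 2) + (D1 + α * |C4|),
      fun T hT => ?_⟩
    have hT0 : 0 < T := by linarith
    have hTE : (1 : ℝ) ≤ T ^ E := Real.one_le_rpow hT hE0.le
    have hTE0 : (0 : ℝ) < T ^ E := by linarith
    obtain ⟨N, hN⟩ : ∃ N : ℕ, N = ⌊T / α⌋₊ := ⟨_, rfl⟩
    have hTα : 0 ≤ T / α := by positivity
    have hN1 : (N : ℝ) ≤ T / α := by rw [hN]; exact Nat.floor_le hTα
    have hN2 : T / α < N + 1 := by rw [hN]; exact Nat.lt_floor_add_one _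
    rw [le_div_iff₀ hp1] at hN1
    rw [div_lt_iff₀ hp1] at hN2
    have hpos1 : 0 ≤ α * (|C1| + |C2|) * (1 / α) ^ E := by positivity
    have hpos2 : 0 ≤ |C3| / 2 + α / 2 := by positivity
    have hpos3 : 0 ≤ D1 + α * |C4| := by positivity
    rcases Nat.eq_zero_or_pos N with hN0 | hN0
    · rw [hN0] at hN2
      push_cast at hN2
      have h1 := hsmall α T hT0.le (by linarith)
      rw [← hD0] at h1
      calc |(∫ t in (0:ℝ)..T, f t) - ∫ t in (0:ℝ)..T, q t| ≤ D0 := h1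
        _ ≤ D0 * T ^ E := le_mul_of_one_le_right hD00 hTE
        _ ≤ _ := by
            apply mul_le_mul_of_nonneg_right _ hTE0.le
            linarith
    · obtain ⟨u, hu⟩ : ∃ u, u = α * (N : ℝ) := ⟨_, rfl⟩
      have hNr : (1 : ℝ) ≤ N := by exact_mod_cast hN0
      have hu0 : 0 ≤ u := by rw [hu]; positivity
      have huT : u ≤ T := by rw [hu]; linarith
      have hTu : T - u ≤ α := by rw [hu]; nlinarith
      have a1 := hC1 N hN0
      have a2 := hC2 N hN0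
      rw [← hu] at a1 a2
      have hNE0 : 0 ≤ (N : ℝ) ^ E := by positivity
      have hNT : (N : ℝ) ^ E ≤ (1 / α) ^ E * T ^ E := by
        rw [← Real.mul_rpow (by positivity) hT0.le]
        apply Real.rpow_le_rpow (by positivity) _ hE0.le
        rw [div_mul_eq_mul_div, one_mul, le_div_iff₀ hp1]
        exact hN1
      have b1 : |(∫ t in (0:ℝ)..u, f t) - ∫ t in (0:ℝ)..u, q t| ≤
          α * (|C1| + |C2|) * (1 / α) ^ E * T ^ E := by
        have c1 : |(∫ t in (0:ℝ)..u, f t) / α - (∫ t in (0:ℝ)..u, q t) / α| ≤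
            (|C1| + |C2|) * (N : ℝ) ^ E := by
          have c2 := abs_sub_le ((∫ t in (0:ℝ)..u, f t) / α)
            (∑ n ∈ Finset.Icc 1 N, f (α * n + p.2)) ((∫ t in (0:ℝ)..u, q t) / α)
          have c5 := abs_sub_comm ((∫ t in (0:ℝ)..u, f t) / α)
            (∑ n ∈ Finset.Icc 1 N, f (α * n + p.2))
          have c3 : C1 * (N : ℝ) ^ E ≤ |C1| * (N : ℝ) ^ E :=
            mul_le_mul_of_nonneg_right (le_abs_self _) hNE0
          have c4 : C2 * (N : ℝ) ^ E ≤ |C2| * (N : ℝ) ^ E :=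
            mul_le_mul_of_nonneg_right (le_abs_self _) hNE0
          linarith
        rw [← sub_div, abs_div, abs_of_pos hp1, div_le_iff₀ hp1] at c1
        calc |(∫ t in (0:ℝ)..u, f t) - ∫ t in (0:ℝ)..u, q t|
            ≤ (|C1| + |C2|) * (N : ℝ) ^ E * α := c1
          _ ≤ (|C1| + |C2|) * ((1 / α) ^ E * T ^ E) * α := by gcongr
          _ = _ := by ring
      have b2 : ∫ t in u..T, f t ≤ (|C3| / 2 + α / 2) * T ^ E := by
        have c1 := window f hf u T T α (T ^ E) hu0 huT le_rfl hTu hTE0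
        have c2 := hC3 T hT
        have c3 : (1:ℝ) + 2 * ε = E + E := by rw [hE]; ring
        rw [c3, Real.rpow_add hT0] at c2
        have c4 : (∫ t in (0:ℝ)..T, f t ^ 2) / (2 * T ^ E) ≤ |C3| / 2 * T ^ E := by
          rw [div_le_iff₀ (by positivity)]
          calc ∫ t in (0:ℝ)..T, f t ^ 2 ≤ C3 * (T ^ E * T ^ E) := c2
            _ ≤ |C3| * (T ^ E * T ^ E) :=
                mul_le_mul_of_nonneg_right (le_abs_self _) (by positivity)
            _ = _ := by ring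
        calc ∫ t in u..T, f t ≤ _ := c1
          _ ≤ |C3| / 2 * T ^ E + T ^ E * α / 2 := by linarith
          _ = _ := by ring
      have b3 : |∫ t in u..T, q t| ≤ (D1 + α * |C4|) * T ^ E := by
        have c1 := q_win q hq C4 ε hε hC4 u T α hu0 huT hT hTu
        rw [← hD1] at c1
        have c2 : T ^ ε ≤ T ^ E := Real.rpow_le_rpow_of_exponent_le hT (by rw [hE]; linarith)
        have c3 : α * (|C4| * T ^ ε) ≤ α * (|C4| * T ^ E) := by gcongr
        have c4 : D1 ≤ D1 * T ^ E := le_mul_of_one_le_right hD10 hTE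
        calc |∫ t in u..T, q t| ≤ D1 + α * (|C4| * T ^ ε) := c1
          _ ≤ D1 * T ^ E + α * (|C4| * T ^ E) := by linarith
          _ = _ := by ring
      have d1 := hFadd u T
      have d2 := hIadd u T hu0 huT
      have d3 := hFpos u T huT
      have d4 := abs_le.1 b1
      have d5 := abs_le.1 b3
      have d6 : 0 ≤ D0 * T ^ E := by positivity
      have d7 : (D0 + α * (|C1| + |C2|) * (1 / α) ^ E + (|C3| / 2 + α / 2) + (D1 + α * |C4|)) *
          T ^ E = D0 * T ^ E + α * (|C1| + |C2|) * (1 / α) ^ E * T ^ E +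
            (|C3| / 2 + α / 2) * T ^ E + (D1 + α * |C4|) * T ^ E := by ring
      have d8 : 0 ≤ (|C3| / 2 + α / 2) * T ^ E := by positivity
      rw [d7, d1, d2, abs_le]
      constructor <;> linarith [d4.1, d4.2, d5.1, d5.2]

/-- Module EQV. -/
theorem t_EQV : S_LOGP → S_GEN → S_EQV := by
  intro hLP hGEN f P hf h0 hM
  obtain ⟨hPi, hPb⟩ := hLP P
  exact eqv_core hGEN f (fun t => P.eval (Real.log (t / (2 * Real.pi)))) hf h0 hM hPi hPb

end Pool.Agent.D0H9.DM
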