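import Pool.Agent.D0H44.DM.Stm2
import Pool.Agent.D0H9.DM.Eqv

/-!
Module EQV2 of the project DM: the question is equivalent to its discrete form, for almost every `α` and any `β`.
-/

set_option autoImplicit false

namespace Pool.Agent.D0H9.DM

open MeasureTheory Set Filter
open Pool.Agent.D0H44.DM

/-- from the continuous to the discrete formula, for one pair -/
theorem cf_df (f q : ℝ → ℝ) (hf : Continuous f) (h0 : ∀ t, 0 ≤ f t)
    (hq : ∀ T : ℝ, 0 ≤ T → IntervalIntegrable q volume 0 T)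
    (α β : ℝ) (hp1 : 0 < α)
    (hgen : ∀ ε : ℝ, 0 < ε → ∃ C : ℝ, ∀ N : ℕ, 1 ≤ N →
      |(∑ n ∈ Finset.Icc 1 N, f (α * n + β)) - (∫ t in (0:ℝ)..(α * N), f t) / α| ≤
        C * (N : ℝ) ^ ((1:ℝ) / 2 + ε))
    (hcont : ∀ ε : ℝ, 0 < ε → ∃ C : ℝ, ∀ T : ℝ, 1 ≤ T →
      |(∫ t in (0:ℝ)..T, f t) - ∫ t in (0:ℝ)..T, q t| ≤ C * T ^ ((1:ℝ) / 2 + ε)) :
    ∀ ε : ℝ, 0 < ε → ∃ C : ℝ, ∀ N : ℕ, 1 ≤ N →
      |(∑ n ∈ Finset.Icc 1 N, f (α * n + β)) - (∫ t in (0:ℝ)..(α * N), q t) / α| ≤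
        C * (N : ℝ) ^ ((1:ℝ) / 2 + ε) := by
  have hFadd : ∀ u v : ℝ, (∫ t in (0:ℝ)..v, f t) = (∫ t in (0:ℝ)..u, f t) + ∫ t in u..v, f t :=
    fun u v => (intervalIntegral.integral_add_adjacent_intervals (hf.intervalIntegrable _ _)
      (hf.intervalIntegrable _ _)).symm
  have hFpos : ∀ u v : ℝ, u ≤ v → 0 ≤ ∫ t in u..v, f t :=
    fun u v h => intervalIntegral.integral_nonneg h fun t _ => h0 t
  have hIadd : ∀ u v : ℝ, 0 ≤ u → u ≤ v →
      (∫ t in (0:ℝ)..v, q t) = (∫ t in (0:ℝ)..u, q t) + ∫ t in u..v, q t :=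
    fun u v hu huv => (intervalIntegral.integral_add_adjacent_intervals (hq u hu)
      (q_int q hq u v hu huv)).symm
  -- bounded ranges
  have hsmall : ∀ B : ℝ, ∀ T : ℝ, 0 ≤ T → T ≤ B →
      |(∫ t in (0:ℝ)..T, f t) - ∫ t in (0:ℝ)..T, q t| ≤
        (∫ t in (0:ℝ)..B, f t) + ∫ t in (0:ℝ)..B, |q t| := by
    intro B T hT hTB
    have e1 := hFadd T B
    have e2 := hFpos T B hTB
    have e3 := hFpos 0 T hT
    have e4 : |∫ t in (0:ℝ)..T, q t| ≤ ∫ t in (0:ℝ)..T, |q t| :=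
      intervalIntegral.abs_integral_le_integral_abs hT
    have e5 : ∫ t in (0:ℝ)..T, |q t| ≤ ∫ t in (0:ℝ)..B, |q t| := by
      apply intervalIntegral.integral_mono_interval le_rfl hT hTB
      · exact Eventually.of_forall fun t => abs_nonneg _
      · exact (hq B (hT.trans hTB)).abs
    have e6 := abs_le.1 (e4.trans e5)
    rw [abs_le]
    constructor <;> linarith [e6.1, e6.2]
  intro ε hε
  obtain ⟨C, hC⟩ := hgen ε hε
  obtain ⟨C', hC'⟩ := hcont ε hε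
  obtain ⟨E, hE⟩ : ∃ E : ℝ, E = 1 / 2 + ε := ⟨_, rfl⟩
  rw [← hE] at hC hC' ⊢
  have hE0 : 0 < E := by rw [hE]; linarith
  obtain ⟨D, hD⟩ : ∃ D, D = (∫ t in (0:ℝ)..1, f t) + ∫ t in (0:ℝ)..1, |q t| := ⟨_, rfl⟩
  have hD0 : 0 ≤ D := by
    rw [hD]
    exact add_nonneg (hFpos 0 1 (by norm_num))
      (intervalIntegral.integral_nonneg (by norm_num) fun t _ => abs_nonneg _)
  refine ⟨C + (|C'| * α ^ E + D) / α, fun N hN => ?_⟩
  have hN1 : (1 : ℝ) ≤ N := by exact_mod_cast hN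
  have hNE : (1 : ℝ) ≤ (N : ℝ) ^ E := Real.one_le_rpow hN1 hE0.le
  have h1 := hC N hN
  have hαN : 0 ≤ α * N := by positivity
  have h2 : |(∫ t in (0:ℝ)..(α * N), f t) - ∫ t in (0:ℝ)..(α * N), q t| ≤
      |C'| * (α * N) ^ E + D := by
    rcases le_or_gt 1 (α * N) with h3 | h3
    · calc |(∫ t in (0:ℝ)..(α * N), f t) - ∫ t in (0:ℝ)..(α * N), q t|
          ≤ C' * (α * N) ^ E := hC' _ h3
        _ ≤ |C'| * (α * N) ^ E := mul_le_mul_of_nonneg_right (le_abs_self _) (by positivity)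
        _ ≤ _ := by linarith
    · have h4 := hsmall 1 (α * N) hαN h3.le
      have h5 : 0 ≤ |C'| * (α * N) ^ E := by positivity
      rw [hD]
      linarith
  have h3 : |(∫ t in (0:ℝ)..(α * N), f t) / α - (∫ t in (0:ℝ)..(α * N), q t) / α| ≤
      (|C'| * α ^ E + D) / α * (N : ℝ) ^ E := by
    rw [← sub_div, abs_div, abs_of_pos hp1, div_le_iff₀ hp1]
    calc |(∫ t in (0:ℝ)..(α * N), f t) - ∫ t in (0:ℝ)..(α * N), q t|
        ≤ |C'| * (α * N) ^ E + D := h2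
      _ ≤ |C'| * (α ^ E * (N : ℝ) ^ E) + D * (N : ℝ) ^ E := by
          rw [Real.mul_rpow hp1.le (by linarith)]
          have : D ≤ D * (N : ℝ) ^ E := le_mul_of_one_le_right hD0 hNE
          linarith
      _ = _ := by field_simp
  calc |(∑ n ∈ Finset.Icc 1 N, f (α * n + β)) - (∫ t in (0:ℝ)..(α * N), q t) / α|
      ≤ |(∑ n ∈ Finset.Icc 1 N, f (α * n + β)) - (∫ t in (0:ℝ)..(α * N), f t) / α| +
        |(∫ t in (0:ℝ)..(α * N), f t) / α - (∫ t in (0:ℝ)..(α * N), q t) / α| :=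
        abs_sub_le _ _ _
    _ ≤ C * (N : ℝ) ^ E + (|C'| * α ^ E + D) / α * (N : ℝ) ^ E := add_le_add h1 h3
    _ = _ := by ring

/-- from the discrete to the continuous formula, for one pair -/
theorem df_cf (f q : ℝ → ℝ) (hf : Continuous f) (h0 : ∀ t, 0 ≤ f t) (hM : Mom f 1)
    (hq : ∀ T : ℝ, 0 ≤ T → IntervalIntegrable q volume 0 T)
    (hb : ∀ ε : ℝ, 0 < ε → ∃ C : ℝ, ∀ t : ℝ, 1 ≤ t → |q t| ≤ C * t ^ ε)
    (α β : ℝ) (hp1 : 0 < α)
    (hgen : ∀ ε : ℝ, 0 < ε → ∃ C : ℝ, ∀ N : ℕ, 1 ≤ N →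
      |(∑ n ∈ Finset.Icc 1 N, f (α * n + β)) - (∫ t in (0:ℝ)..(α * N), f t) / α| ≤
        C * (N : ℝ) ^ ((1:ℝ) / 2 + ε))
    (hdf : ∀ ε : ℝ, 0 < ε → ∃ C : ℝ, ∀ N : ℕ, 1 ≤ N →
      |(∑ n ∈ Finset.Icc 1 N, f (α * n + β)) - (∫ t in (0:ℝ)..(α * N), q t) / α| ≤
        C * (N : ℝ) ^ ((1:ℝ) / 2 + ε)) :
    ∀ ε : ℝ, 0 < ε → ∃ C : ℝ, ∀ T : ℝ, 1 ≤ T →
      |(∫ t in (0:ℝ)..T, f t) - ∫ t in (0:ℝ)..T, q t| ≤ C * T ^ ((1:ℝ) / 2 + ε) := by
  have hFadd : ∀ u v : ℝ, (∫ t in (0:ℝ)..v, f t) = (∫ t in (0:ℝ)..u, f t) + ∫ t in u..v, f t :=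
    fun u v => (intervalIntegral.integral_add_adjacent_intervals (hf.intervalIntegrable _ _)
      (hf.intervalIntegrable _ _)).symm
  have hFpos : ∀ u v : ℝ, u ≤ v → 0 ≤ ∫ t in u..v, f t :=
    fun u v h => intervalIntegral.integral_nonneg h fun t _ => h0 t
  have hIadd : ∀ u v : ℝ, 0 ≤ u → u ≤ v →
      (∫ t in (0:ℝ)..v, q t) = (∫ t in (0:ℝ)..u, q t) + ∫ t in u..v, q t :=
    fun u v hu huv => (intervalIntegral.integral_add_adjacent_intervals (hq u hu)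
      (q_int q hq u v hu huv)).symm
  -- bounded ranges
  have hsmall : ∀ B : ℝ, ∀ T : ℝ, 0 ≤ T → T ≤ B →
      |(∫ t in (0:ℝ)..T, f t) - ∫ t in (0:ℝ)..T, q t| ≤
        (∫ t in (0:ℝ)..B, f t) + ∫ t in (0:ℝ)..B, |q t| := by
    intro B T hT hTB
    have e1 := hFadd T B
    have e2 := hFpos T B hTB
    have e3 := hFpos 0 T hT
    have e4 : |∫ t in (0:ℝ)..T, q t| ≤ ∫ t in (0:ℝ)..T, |q t| :=
      intervalIntegral.abs_integral_le_integral_abs hT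
    have e5 : ∫ t in (0:ℝ)..T, |q t| ≤ ∫ t in (0:ℝ)..B, |q t| := by
      apply intervalIntegral.integral_mono_interval le_rfl hT hTB
      · exact Eventually.of_forall fun t => abs_nonneg _
      · exact (hq B (hT.trans hTB)).abs
    have e6 := abs_le.1 (e4.trans e5)
    rw [abs_le]
    constructor <;> linarith [e6.1, e6.2]
  intro ε hε
  obtain ⟨C1, hC1⟩ := hgen ε hε
  obtain ⟨C2, hC2⟩ := hdf ε hε
  obtain ⟨C3, hC3⟩ := hM (2 * ε) (by linarith)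
  obtain ⟨C4, hC4⟩ := hb ε hε
  obtain ⟨E, hE⟩ : ∃ E : ℝ, E = 1 / 2 + ε := ⟨_, rfl⟩
  rw [← hE] at hC1 hC2 ⊢
  have hE0 : 0 < E := by rw [hE]; linarith
  obtain ⟨D0, hD0⟩ : ∃ D, D = (∫ t in (0:ℝ)..α, f t) + ∫ t in (0:ℝ)..α, |q t| := ⟨_, rfl⟩
  have hD00 : 0 ≤ D0 := by
    rw [hD0]
    exact add_nonneg (hFpos 0 α hp1.le)
      (intervalIntegral.integral_nonneg hp1.le fun t _ => abs_nonneg _)
  obtain ⟨D1, hD1⟩ : ∃ D, D = ∫ t in (0:ℝ)..1, |q t| := ⟨_, rfl⟩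
  have hD10 : 0 ≤ D1 := by
    rw [hD1]
    exact intervalIntegral.integral_nonneg (by norm_num) fun t _ => abs_nonneg _
  refine ⟨D0 + α * (|C1| + |C2|) * (1 / α) ^ E + (|C3| / 2 + α / 2) + (D1 + α * |C4|),
    fun T hT => ?_⟩
  have hT0 : 0 < T := by linarith
  have hTE : (1 : ℝ) ≤ T ^ E := Real.one_le_rpow hT hE0.le
  have hTE0 : (0 : ℝ) < T ^ E := by linarith
  obtain ⟨N, hN⟩ : ∃ N : ℕ, N = ⌊T / α⌋₊ := ⟨_, rfl⟩
  have hTα : 0 ≤ T / α := by positivity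
  have hN1 : (N : ℝ) ≤ T / α := by rw [hN]; exact Nat.floor_le hTα
  have hN2 : T / α < N + 1 := by rw [hN]; exact Nat.lt_floor_add_one _
  rw [le_div_iff₀ hp1] at hN1
  rw [div_lt_iff₀ hp1] at hN2
  have hpos1 : 0 ≤ α * (|C1| + |C2|) * (1 / α) ^ E := by positivity
  have hpos2 : 0 ≤ |C3| / 2 + α / 2 := by positivity
  have hpos3 : 0 ≤ D1 + α * |C4| := by positivity
  rcases Nat.eq_zero_or_pos N with hN0 | hN0
  · rw [hN0] at hN2
    push_cast at hN2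
    have h1 := hsmall α T hT0.le (by linarith)
    rw [← hD0] at h1
    calc |(∫ t in (0:ℝ)..T, f t) - ∫ t in (0:ℝ)..T, q t| ≤ D0 := h1
      _ ≤ D0 * T ^ E := le_mul_of_one_le_right hD00 hTE
      _ ≤ _ := by
          apply mul_le_mul_of_nonneg_right _ hTE0.le
          linarith
  · obtain ⟨u, hu⟩ : ∃ u, u = α * (N : ℝ) := ⟨_, rfl⟩
    have hNr : (1 : ℝ) ≤ N := by exact_mod_cast hN0
    have hu0 : 0 ≤ u := by rw [hu]; positivity
    have huT : u ≤ T := by rw [hu]; linarith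
    have hTu : T - u ≤ α := by rw [hu]; nlinarith
    have a1 := hC1 N hN0
    have a2 := hC2 N hN0
    rw [← hu] at a1 a2
    have hNE0 : 0 ≤ (N : ℝ) ^ E := by positivity
    have hNT : (N : ℝ) ^ E ≤ (1 / α) ^ E * T ^ E := by
      rw [← Real.mul_rpow (by positivity) hT0.le]
      apply Real.rpow_le_rpow (by positivity) _ hE0.le
      rw [div_mul_eq_mul_div, one_mul, le_div_iff₀ hp1]
      exact hN1
    have b1 : |(∫ t in (0:ℝ)..u, f t) - ∫ t in (0:ℝ)..u, q t| ≤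
        α * (|C1| + |C2|) * (1 / α) ^ E * T ^ E := by
      have c1 : |(∫ t in (0:ℝ)..u, f t) / α - (∫ t in (0:ℝ)..u, q t) / α| ≤
          (|C1| + |C2|) * (N : ℝ) ^ E := by
        have c2 := abs_sub_le ((∫ t in (0:ℝ)..u, f t) / α)
          (∑ n ∈ Finset.Icc 1 N, f (α * n + β)) ((∫ t in (0:ℝ)..u, q t) / α)
        have c5 := abs_sub_comm ((∫ t in (0:ℝ)..u, f t) / α)
          (∑ n ∈ Finset.Icc 1 N, f (α * n + β))
        have c3 : C1 * (N : ℝ) ^ E ≤ |C1| * (N : ℝ) ^ E :=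
          mul_le_mul_of_nonneg_right (le_abs_self _) hNE0
        have c4 : C2 * (N : ℝ) ^ E ≤ |C2| * (N : ℝ) ^ E :=
          mul_le_mul_of_nonneg_right (le_abs_self _) hNE0
        linarith
      rw [← sub_div, abs_div, abs_of_pos hp1, div_le_iff₀ hp1] at c1
      calc |(∫ t in (0:ℝ)..u, f t) - ∫ t in (0:ℝ)..u, q t|
          ≤ (|C1| + |C2|) * (N : ℝ) ^ E * α := c1
        _ ≤ (|C1| + |C2|) * ((1 / α) ^ E * T ^ E) * α := by gcongr
        _ = _ := by ring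
    have b2 : ∫ t in u..T, f t ≤ (|C3| / 2 + α / 2) * T ^ E := by
      have c1 := window f hf u T T α (T ^ E) hu0 huT le_rfl hTu hTE0
      have c2 := hC3 T hT
      have c3 : (1:ℝ) + 2 * ε = E + E := by rw [hE]; ring
      rw [c3, Real.rpow_add hT0] at c2
      have c4 : (∫ t in (0:ℝ)..T, f t ^ 2) / (2 * T ^ E) ≤ |C3| / 2 * T ^ E := by
        rw [div_le_iff₀ (by positivity)]
        calc ∫ t in (0:ℝ)..T, f t ^ 2 ≤ C3 * (T ^ E * T ^ E) := c2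
          _ ≤ |C3| * (T ^ E * T ^ E) :=
              mul_le_mul_of_nonneg_right (le_abs_self _) (by positivity)
          _ = _ := by ring
      calc ∫ t in u..T, f t ≤ _ := c1
        _ ≤ |C3| / 2 * T ^ E + T ^ E * α / 2 := by linarith
        _ = _ := by ring
    have b3 : |∫ t in u..T, q t| ≤ (D1 + α * |C4|) * T ^ E := by
      have c1 := q_win q hq C4 ε hε hC4 u T α hu0 huT hT hTu
      rw [← hD1] at c1
      have c2 : T ^ ε ≤ T ^ E := Real.rpow_le_rpow_of_exponent_le hT (by rw [hE]; linarith)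
      have c3 : α * (|C4| * T ^ ε) ≤ α * (|C4| * T ^ E) := by gcongr
      have c4 : D1 ≤ D1 * T ^ E := le_mul_of_one_le_right hD10 hTE
      calc |∫ t in u..T, q t| ≤ D1 + α * (|C4| * T ^ ε) := c1
        _ ≤ D1 * T ^ E + α * (|C4| * T ^ E) := by linarith
        _ = _ := by ring
    have d1 := hFadd u T
    have d2 := hIadd u T hu0 huT
    have d3 := hFpos u T huT
    have d4 := abs_le.1 b1
    have d5 := abs_le.1 b3
    have d6 : 0 ≤ D0 * T ^ E := by positivity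
    have d7 : (D0 + α * (|C1| + |C2|) * (1 / α) ^ E + (|C3| / 2 + α / 2) + (D1 + α * |C4|)) *
        T ^ E = D0 * T ^ E + α * (|C1| + |C2|) * (1 / α) ^ E * T ^ E +
          (|C3| / 2 + α / 2) * T ^ E + (D1 + α * |C4|) * T ^ E := by ring
    have d8 : 0 ≤ (|C3| / 2 + α / 2) * T ^ E := by positivity
    rw [d7, d1, d2, abs_le]
    constructor <;> linarith [d4.1, d4.2, d5.1, d5.2]

/-- Module EQV2. -/
theorem t_EQV2 : S_LOGP → S_GEN2 → S_EQV2 := by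
  intro hLP hGEN f P hf h0 hM hMd
  obtain ⟨hPi, hPb⟩ := hLP P
  have hfc : Continuous f := hf.continuous
  have hgen := hGEN f 1 hf h0 (by norm_num) hM hMd
  have hg : ∀ᵐ α : ℝ, 0 < α → ∀ β : ℝ, (CF f P ↔ DF f P α β) := by
    filter_upwards [hgen] with α h1 hα β
    have h2 : ∀ ε : ℝ, 0 < ε → ∃ C : ℝ, ∀ N : ℕ, 1 ≤ N →
        |(∑ n ∈ Finset.Icc 1 N, f (α * n + β)) - (∫ t in (0:ℝ)..(α * N), f t) / α| ≤
          C * (N : ℝ) ^ ((1:ℝ) / 2 + ε) := by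
      intro ε hε
      obtain ⟨C, hC⟩ := h1 hα |β| ε hε
      exact ⟨C, hC β le_rfl⟩
    exact ⟨fun h => cf_df f (fun t => P.eval (Real.log (t / (2 * Real.pi)))) hfc h0 hPi α β hα h2 h,
      fun h => df_cf f (fun t => P.eval (Real.log (t / (2 * Real.pi)))) hfc h0 hM hPi hPb α β hα
        h2 h⟩
  have hpos : ¬ ∀ᵐ α : ℝ, ¬ 0 < α := by
    intro h
    rw [ae_iff] at h
    have hne : volume {α : ℝ | 0 < α} ≠ 0 :=
      (isOpen_lt continuous_const continuous_id).measure_ne_zero volume ⟨1, by simp⟩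
    apply hne
    simpa using h
  refine ⟨⟨fun h => ?_, fun h => ?_⟩, ⟨fun h h' => ?_, fun h => ?_⟩⟩
  · filter_upwards [hg] with α h1 hα β
    exact (h1 hα β).1 h
  · by_contra hcon
    apply hpos
    filter_upwards [hg, h] with α h1 h2 hα
    exact hcon ((h1 hα 0).2 (h2 hα 0))
  · apply hpos
    filter_upwards [hg, h'] with α h1 h2 hα
    exact h2 hα 0 ((h1 hα 0).1 h)
  · by_contra hcon
    apply h
    filter_upwards [hg] with α h1 hα β hd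
    exact hcon ((h1 hα β).2 hd)

end Pool.Agent.D0H9.DM
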