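import Pool.Agent.D0H44.DM.Stm2
import Pool.Agent.D0H9.DM.Gen

/-!
Module GEN2 of the project DM: almost every `α`, every `β`.
-/

set_option autoImplicit false

namespace Pool.Agent.D0H9.DM

open MeasureTheory Set Filter
open Pool.Agent.D0H44.DM

/-- The finitely many terms, uniformly in `β`. -/
theorem few (f : ℝ → ℝ) (hf : Continuous f) (α B : ℝ) (hα : 0 < α) :
    ∃ c : ℝ, 0 ≤ c ∧ ∀ β : ℝ, |β| ≤ B → ∑ n ∈ Finset.Icc 1 ⌊-β / α⌋, f (α * n + β) +
      ∑ n ∈ Finset.Ioc ⌊-β / α⌋ 0, f (α * n + β) ≤ c := by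
  obtain ⟨Q, hQ⟩ := (isCompact_Icc (a := -|B|) (b := |B|)).exists_bound_of_continuousOn
    hf.continuousOn
  have hQ' : ∀ x ∈ Icc (-|B|) |B|, f x ≤ |Q| := fun x hx =>
    (le_abs_self _).trans ((hQ x hx).trans (le_abs_self _))
  refine ⟨(|B| / α + 1) * |Q| + (|B| / α + 1) * |Q|, by positivity, fun β hβ => ?_⟩
  have hβ' := abs_le.1 (hβ.trans (le_abs_self B))
  have ha1 := Int.floor_le (-β / α)
  have ha2 := Int.lt_floor_add_one (-β / α)
  rw [le_div_iff₀ hα] at ha1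
  rw [div_lt_iff₀ hα] at ha2
  have hdiv : |B| / α * α = |B| := div_mul_cancel₀ _ hα.ne'
  apply add_le_add
  · have h1 : ∑ n ∈ Finset.Icc 1 ⌊-β / α⌋, f (α * n + β) ≤
        (Finset.Icc 1 ⌊-β / α⌋).card • |Q| := by
      apply Finset.sum_le_card_nsmul
      intro n hn
      rw [Finset.mem_Icc] at hn
      have e1 : (1 : ℝ) ≤ n := by exact_mod_cast hn.1
      have e2 : (n : ℝ) ≤ (⌊-β / α⌋ : ℤ) := by exact_mod_cast hn.2
      have e3 : α * n ≤ α * (⌊-β / α⌋ : ℤ) := mul_le_mul_of_nonneg_left e2 hα.le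
      have e4 : 0 ≤ α * n := by positivity
      apply hQ'
      constructor
      · linarith [hβ'.1]
      · have : (⌊-β / α⌋ : ℝ) * α = α * ⌊-β / α⌋ := mul_comm _ _
        linarith [abs_nonneg B]
    refine h1.trans ?_
    rw [nsmul_eq_mul]
    apply mul_le_mul_of_nonneg_right _ (abs_nonneg _)
    rw [Int.card_Icc]
    rcases le_or_gt 0 ⌊-β / α⌋ with h2 | h2
    · have h3 : ((⌊-β / α⌋ + 1 - 1).toNat : ℤ) = ⌊-β / α⌋ := by omega
      have h4 : (((⌊-β / α⌋ + 1 - 1).toNat : ℤ) : ℝ) = ((⌊-β / α⌋ : ℤ) : ℝ) := by rw [h3]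
      push_cast at h4
      rw [h4]
      have h5 : (⌊-β / α⌋ : ℝ) ≤ |B| / α := by
        rw [le_div_iff₀ hα]
        linarith [hβ'.1]
      linarith
    · have h3 : (⌊-β / α⌋ + 1 - 1).toNat = 0 := by omega
      rw [h3]
      push_cast
      positivity
  · have h1 : ∑ n ∈ Finset.Ioc ⌊-β / α⌋ 0, f (α * n + β) ≤
        (Finset.Ioc ⌊-β / α⌋ 0).card • |Q| := by
      apply Finset.sum_le_card_nsmul
      intro n hn
      rw [Finset.mem_Ioc] at hn
      have e1 : (n : ℝ) ≤ 0 := by exact_mod_cast hn.2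
      have e2 : ((⌊-β / α⌋ : ℤ) : ℝ) + 1 ≤ n := by
        have : ⌊-β / α⌋ + 1 ≤ n := by omega
        exact_mod_cast this
      have e3 : (((⌊-β / α⌋ : ℤ) : ℝ) + 1) * α ≤ n * α := mul_le_mul_of_nonneg_right e2 hα.le
      have e4 : n * α ≤ 0 := mul_nonpos_of_nonpos_of_nonneg e1 hα.le
      apply hQ'
      have e5 : α * (n : ℝ) = n * α := mul_comm _ _
      constructor
      · rw [e5]
        linarith [abs_nonneg B]
      · rw [e5]
        linarith [hβ'.2]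
    refine h1.trans ?_
    rw [nsmul_eq_mul]
    apply mul_le_mul_of_nonneg_right _ (abs_nonneg _)
    rw [Int.card_Ioc]
    rcases le_or_gt ⌊-β / α⌋ 0 with h2 | h2
    · have h3 : ((0 - ⌊-β / α⌋).toNat : ℤ) = - ⌊-β / α⌋ := by omega
      have h4 : (((0 - ⌊-β / α⌋).toNat : ℤ) : ℝ) = ((-⌊-β / α⌋ : ℤ) : ℝ) := by rw [h3]
      push_cast at h4
      rw [h4]
      have h5 : -(⌊-β / α⌋ : ℝ) - 1 ≤ |B| / α := by
        rw [le_div_iff₀ hα]
        linarith [hβ'.2]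
      linarith
    · have h3 : (0 - ⌊-β / α⌋).toNat = 0 := by omega
      rw [h3]
      push_cast
      positivity

/-- The deterministic part. -/
theorem det2 (f : ℝ → ℝ) (A : ℝ) (hf : Continuous f) (h0 : ∀ t, 0 ≤ f t) (hA : 0 ≤ A)
    (hM : Mom f A) (α B : ℝ) (hα : 0 < α)
    (hQ : ∀ ε : ℝ, 0 < ε → ∃ C : ℝ, ∀ β : ℝ, ∀ y : ℕ, 1 ≤ y →
      |dd f 0 y α β| ≤ C * (y : ℝ) ^ (A / 2 + ε)) :
    ∀ ε : ℝ, 0 < ε → ∃ C : ℝ, ∀ β : ℝ, |β| ≤ B → ∀ N : ℕ, 1 ≤ N →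
      |(∑ n ∈ Finset.Icc 1 N, f (α * n + β)) - (∫ t in (0:ℝ)..(α * N), f t) / α| ≤
        C * (N : ℝ) ^ (A / 2 + ε) := by
  intro ε hε
  obtain ⟨C0, hC0⟩ := hQ ε hε
  obtain ⟨C1, hC1⟩ := hM (2 * ε) (by linarith)
  obtain ⟨E, hE⟩ : ∃ E, E = A / 2 + ε := ⟨_, rfl⟩
  have hE0 : 0 < E := by rw [hE]; linarith
  obtain ⟨L, hL⟩ : ∃ L, L = |B| + 2 := ⟨_, rfl⟩
  have hB0 := abs_nonneg B
  have hL2 : 2 ≤ L := by rw [hL]; linarith
  obtain ⟨M, hMd⟩ : ∃ M, M = α + 2 * L := ⟨_, rfl⟩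
  have hM4 : 4 ≤ M := by rw [hMd]; linarith
  obtain ⟨K, hK⟩ : ∃ K, K = |C1| * M ^ (2 * E) / 2 + L / 2 := ⟨_, rfl⟩
  have hK0 : 0 ≤ K := by rw [hK]; positivity
  obtain ⟨P, hP⟩ : ∃ P, P = |C0| * M ^ E := ⟨_, rfl⟩
  have hP0 : 0 ≤ P := by rw [hP]; positivity
  obtain ⟨c, hc0, hcb⟩ := few f hf α B hα
  refine ⟨c + (P + K / α), fun β hβB N hN => ?_⟩
  have hβ := abs_nonneg β
  have hβB' : |β| ≤ |B| := hβB.trans (le_abs_self B)
  have hC0 : ∀ y : ℕ, 1 ≤ y → |dd f 0 y α β| ≤ C0 * (y : ℝ) ^ (A / 2 + ε) := hC0 β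
  set a0 : ℤ := ⌊-β / α⌋ with ha0
  have hc := hcb β hβB
  rw [← hE]
  have hN1 : (1 : ℝ) ≤ N := by exact_mod_cast hN
  have hNE : (1 : ℝ) ≤ (N : ℝ) ^ E := Real.one_le_rpow hN1 hE0.le
  have hNE0 : (0 : ℝ) < (N : ℝ) ^ E := by linarith
  have hMN : 1 ≤ M * N := by nlinarith
  -- windows
  have hwin : ∀ u v : ℝ, 0 ≤ u → u ≤ v → v ≤ M * N → v - u ≤ L →
      ∫ t in u..v, f t ≤ K * (N : ℝ) ^ E := by
    intro u v h1 h2 h3 h4
    have h5 := window f hf u v (M * N) L ((N : ℝ) ^ E) h1 h2 h3 h4 hNE0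
    have h6 := hC1 (M * N) hMN
    have h7 : A + 2 * ε = E + E := by rw [hE]; ring
    have h8 : (M * (N : ℝ)) ^ (A + 2 * ε) = M ^ (2 * E) * ((N : ℝ) ^ E * (N : ℝ) ^ E) := by
      rw [h7, Real.mul_rpow (by linarith) (by linarith), Real.rpow_add (by linarith : (0:ℝ) < N)]
      congr 2
      ring
    have h9 : C1 * (M * (N : ℝ)) ^ (A + 2 * ε) ≤
        |C1| * (M ^ (2 * E) * ((N : ℝ) ^ E * (N : ℝ) ^ E)) := by
      rw [h8]
      exact mul_le_mul_of_nonneg_right (le_abs_self _) (by positivity)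
    have h10 : (∫ t in (0:ℝ)..(M * N), f t ^ 2) / (2 * (N : ℝ) ^ E) ≤
        |C1| * M ^ (2 * E) / 2 * (N : ℝ) ^ E := by
      rw [div_le_iff₀ (by positivity)]
      calc ∫ t in (0:ℝ)..(M * N), f t ^ 2 ≤ |C1| * (M ^ (2 * E) * ((N : ℝ) ^ E * (N : ℝ) ^ E)) :=
            h6.trans h9
        _ = _ := by ring
    rw [hK]
    calc ∫ t in u..v, f t ≤ _ := h5
      _ ≤ |C1| * M ^ (2 * E) / 2 * (N : ℝ) ^ E + (N : ℝ) ^ E * L / 2 := by linarith
      _ = _ := by ring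
  -- the discrepancy
  have hdd : ∀ y : ℕ, 1 ≤ y → (y : ℝ) ≤ M * N → |dd f 0 y α β| ≤ P * (N : ℝ) ^ E := by
    intro y hy hyM
    have h1 := hC0 y hy
    rw [← hE] at h1
    have hy0 : (0 : ℝ) ≤ y := Nat.cast_nonneg y
    have h2 : (y : ℝ) ^ E ≤ (M * N) ^ E := Real.rpow_le_rpow hy0 hyM hE0.le
    rw [hP]
    calc |dd f 0 y α β| ≤ C0 * (y : ℝ) ^ E := h1
      _ ≤ |C0| * (y : ℝ) ^ E := mul_le_mul_of_nonneg_right (le_abs_self _) (by positivity)
      _ ≤ |C0| * (M * N) ^ E := mul_le_mul_of_nonneg_left h2 (abs_nonneg _)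
      _ = |C0| * M ^ E * (N : ℝ) ^ E := by
          rw [Real.mul_rpow (by linarith) (by linarith)]; ring
  -- the primitive
  have hFadd : ∀ u v : ℝ, (∫ t in (0:ℝ)..v, f t) = (∫ t in (0:ℝ)..u, f t) + ∫ t in u..v, f t :=
    fun u v => (intervalIntegral.integral_add_adjacent_intervals (hf.intervalIntegrable _ _)
      (hf.intervalIntegrable _ _)).symm
  have hFpos : ∀ u v : ℝ, u ≤ v → 0 ≤ ∫ t in u..v, f t :=
    fun u v h => intervalIntegral.integral_nonneg h fun t _ => h0 t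
  set g : ℤ → ℝ := fun n => f (α * n + β) with hg
  have hg0 : ∀ n, 0 ≤ g n := fun n => h0 _
  obtain ⟨H, hH⟩ : ∃ H : ℝ, H = ∑ n ∈ Finset.Ioc a0 (N : ℤ), g n := ⟨_, rfl⟩
  have hH0 : 0 ≤ H := by rw [hH]; exact Finset.sum_nonneg fun n _ => hg0 n
  have hGsum : ∑ n ∈ Finset.Icc 1 N, f (α * n + β) = ∑ n ∈ Finset.Icc (1 : ℤ) N, g n := by
    have h1 : Finset.Icc (1 : ℤ) N = (Finset.Icc 1 N).image (Nat.cast : ℕ → ℤ) := by
      ext n
      rw [Finset.mem_Icc, Finset.mem_image]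
      constructor
      · rintro ⟨e1, e2⟩
        refine ⟨n.toNat, Finset.mem_Icc.2 ⟨by omega, by omega⟩, by omega⟩
      · rintro ⟨m, hm, rfl⟩
        rw [Finset.mem_Icc] at hm
        omega
    rw [h1, Finset.sum_image (fun a _ b _ h => by exact_mod_cast h)]
    apply Finset.sum_congr rfl
    intro n _
    simp [hg]
  have hGH : |(∑ n ∈ Finset.Icc 1 N, f (α * n + β)) - H| ≤ c := by
    rw [hGsum, abs_le, hH]
    have s1 : ∑ n ∈ Finset.Icc (1 : ℤ) N, g n ≤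
        ∑ n ∈ Finset.Ioc a0 (N : ℤ), g n + ∑ n ∈ Finset.Icc 1 a0, g n := by
      calc ∑ n ∈ Finset.Icc (1 : ℤ) N, g n
          ≤ ∑ n ∈ Finset.Ioc a0 (N : ℤ) ∪ Finset.Icc 1 a0, g n := by
            apply Finset.sum_le_sum_of_subset_of_nonneg
            · intro n hn
              rw [Finset.mem_Icc] at hn
              rw [Finset.mem_union, Finset.mem_Ioc, Finset.mem_Icc]
              omega
            · intro n _ _
              exact hg0 n
        _ ≤ _ := by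
            have := Finset.sum_union_inter (s₁ := Finset.Ioc a0 (N : ℤ)) (s₂ := Finset.Icc 1 a0) (f := g)
            have h2 : 0 ≤ ∑ n ∈ Finset.Ioc a0 (N : ℤ) ∩ Finset.Icc 1 a0, g n :=
              Finset.sum_nonneg fun n _ => hg0 n
            linarith
    have s2 : ∑ n ∈ Finset.Ioc a0 (N : ℤ), g n ≤
        ∑ n ∈ Finset.Icc (1 : ℤ) N, g n + ∑ n ∈ Finset.Ioc a0 0, g n := by
      calc ∑ n ∈ Finset.Ioc a0 (N : ℤ), g n
          ≤ ∑ n ∈ Finset.Icc (1 : ℤ) N ∪ Finset.Ioc a0 0, g n := by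
            apply Finset.sum_le_sum_of_subset_of_nonneg
            · intro n hn
              rw [Finset.mem_Ioc] at hn
              rw [Finset.mem_union, Finset.mem_Ioc, Finset.mem_Icc]
              omega
            · intro n _ _
              exact hg0 n
        _ ≤ _ := by
            have := Finset.sum_union_inter (s₁ := Finset.Icc (1 : ℤ) N) (s₂ := Finset.Ioc a0 0) (f := g)
            have h2 : 0 ≤ ∑ n ∈ Finset.Icc (1 : ℤ) N ∩ Finset.Ioc a0 0, g n :=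
              Finset.sum_nonneg fun n _ => hg0 n
            linarith
    have s3 : 0 ≤ ∑ n ∈ Finset.Icc 1 a0, g n := Finset.sum_nonneg fun n _ => hg0 n
    have s4 : 0 ≤ ∑ n ∈ Finset.Ioc a0 0, g n := Finset.sum_nonneg fun n _ => hg0 n
    have s5 : ∑ n ∈ Finset.Icc 1 a0, g n + ∑ n ∈ Finset.Ioc a0 0, g n ≤ c := hc
    constructor <;> linarith
  obtain ⟨X, hX⟩ : ∃ X, X = α * N + β := ⟨_, rfl⟩
  have hβ1 := neg_abs_le β
  have hβ2 := le_abs_self β
  have hαN : 0 ≤ α * N := by positivity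
  have hLN : L ≤ L * N := by nlinarith
  have hMNe : M * N = α * N + 2 * (L * N) := by rw [hMd]; ring
  -- upper bound
  have hup : H ≤ (∫ t in (0:ℝ)..(α * N), f t) / α + (P + K / α) * (N : ℝ) ^ E := by
    obtain ⟨y, hy⟩ : ∃ y : ℕ, y = ⌈X⌉₊ + 1 := ⟨_, rfl⟩
    have hy1 : 1 ≤ y := by omega
    have hyX : X ≤ y := by
      rw [hy]; push_cast
      linarith [Nat.le_ceil X]
    have hyL : (y : ℝ) ≤ α * N + L := by
      rw [hy]; push_cast
      rcases le_or_gt 0 X with h1 | h1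
      · have := Nat.ceil_lt_add_one h1
        rw [hL]; rw [hX] at this ⊢
        linarith
      · have : ⌈X⌉₊ = 0 := Nat.ceil_eq_zero.2 h1.le
        rw [this]; push_cast
        linarith
    have hyM : (y : ℝ) ≤ M * N := by rw [hMNe]; linarith
    have h1 : H ≤ sm f 0 y α β := by
      rw [hH, sm_eq f y α β hα]
      apply Finset.sum_le_sum_of_subset_of_nonneg
      · apply Finset.Ioc_subset_Ioc le_rfl
        rw [Int.le_floor, le_div_iff₀ hα]
        push_cast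
        rw [hX] at hyX
        linarith
      · intro n _ _
        exact hg0 n
    have h2 := (abs_le.1 (hdd y hy1 hyM)).2
    unfold dd at h2
    have h3 : ∫ t in (0:ℝ)..(y : ℝ), f t ≤ (∫ t in (0:ℝ)..(α * N), f t) + K * (N : ℝ) ^ E := by
      have e1 := hFadd y (α * N + L)
      have e2 := hFpos y (α * N + L) hyL
      have e3 := hFadd (α * N) (α * N + L)
      have e4 := hwin (α * N) (α * N + L) hαN (by linarith) (by rw [hMNe]; linarith) (by linarith)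
      linarith
    have h4 : (∫ t in (0:ℝ)..(y : ℝ), f t) / α ≤
        ((∫ t in (0:ℝ)..(α * N), f t) + K * (N : ℝ) ^ E) / α := div_le_div_of_nonneg_right h3 hα.le
    rw [add_div] at h4
    have h5 : (P + K / α) * (N : ℝ) ^ E = P * (N : ℝ) ^ E + K * (N : ℝ) ^ E / α := by ring
    rw [h5]
    linarith
  -- lower bound
  have hlow : (∫ t in (0:ℝ)..(α * N), f t) / α ≤ H + (P + K / α) * (N : ℝ) ^ E := by
    have h5 : (P + K / α) * (N : ℝ) ^ E = P * (N : ℝ) ^ E + K * (N : ℝ) ^ E / α := by ring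
    have h6 : 0 ≤ P * (N : ℝ) ^ E := by positivity
    rcases le_or_gt 1 X with hX1 | hX1
    · obtain ⟨y, hy⟩ : ∃ y : ℕ, y = ⌊X⌋₊ := ⟨_, rfl⟩
      have hy1 : 1 ≤ y := by
        rw [hy]; exact Nat.le_floor (by push_cast; exact hX1)
      have hyX : (y : ℝ) ≤ X := by rw [hy]; exact Nat.floor_le (by linarith)
      have hyX1 : X < y + 1 := by rw [hy]; exact Nat.lt_floor_add_one X
      rw [hX] at hyX hyX1
      have hyM : (y : ℝ) ≤ M * N := by rw [hMNe]; linarith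
      have h1 : sm f 0 y α β ≤ H := by
        rw [hH, sm_eq f y α β hα]
        apply Finset.sum_le_sum_of_subset_of_nonneg
        · apply Finset.Ioc_subset_Ioc le_rfl
          have : ((y : ℝ) - β) / α < ((N : ℤ) : ℝ) + 1 := by
            rw [div_lt_iff₀ hα]
            push_cast
            nlinarith
          have h7 := Int.floor_lt.2 (show ((y : ℝ) - β) / α < (((N : ℤ) + 1 : ℤ) : ℝ) by
            push_cast at this ⊢; exact this)
          omega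
        · intro n _ _
          exact hg0 n
      have h2 := (abs_le.1 (hdd y hy1 hyM)).1
      unfold dd at h2
      have hy0 : (0 : ℝ) ≤ y := Nat.cast_nonneg y
      have h3 : ∫ t in (0:ℝ)..(α * N), f t ≤ (∫ t in (0:ℝ)..(y : ℝ), f t) + K * (N : ℝ) ^ E := by
        have e1 := hFadd (α * N) ((y : ℝ) + L)
        have e2 := hFpos (α * N) ((y : ℝ) + L) (by linarith)
        have e3 := hFadd (y : ℝ) ((y : ℝ) + L)
        have e4 := hwin (y : ℝ) ((y : ℝ) + L) hy0 (by linarith) (by rw [hMNe]; linarith)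
          (by linarith)
        linarith
      have h4 : (∫ t in (0:ℝ)..(α * N), f t) / α ≤
          ((∫ t in (0:ℝ)..(y : ℝ), f t) + K * (N : ℝ) ^ E) / α := div_le_div_of_nonneg_right h3 hα.le
      rw [add_div] at h4
      rw [h5]
      linarith
    · have h3 : ∫ t in (0:ℝ)..(α * N), f t ≤ K * (N : ℝ) ^ E := by
        rw [hX] at hX1
        have e1 := hwin 0 (α * N) le_rfl hαN (by rw [hMNe]; nlinarith) (by linarith)
        exact e1
      have h4 : (∫ t in (0:ℝ)..(α * N), f t) / α ≤ K * (N : ℝ) ^ E / α :=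
        div_le_div_of_nonneg_right h3 hα.le
      rw [h5]
      linarith
  have hfin : |H - (∫ t in (0:ℝ)..(α * N), f t) / α| ≤ (P + K / α) * (N : ℝ) ^ E := by
    rw [abs_le]
    constructor <;> linarith
  calc |(∑ n ∈ Finset.Icc 1 N, f (α * n + β)) - (∫ t in (0:ℝ)..(α * N), f t) / α|
      ≤ |(∑ n ∈ Finset.Icc 1 N, f (α * n + β)) - H| +
        |H - (∫ t in (0:ℝ)..(α * N), f t) / α| := abs_sub_le _ _ _
    _ ≤ c + (P + K / α) * (N : ℝ) ^ E := add_le_add hGH hfin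
    _ ≤ c * (N : ℝ) ^ E + (P + K / α) * (N : ℝ) ^ E := by
        have : c ≤ c * (N : ℝ) ^ E := le_mul_of_one_le_right hc0 hNE
        linarith
    _ = _ := by ring

theorem mom_le (f g : ℝ → ℝ) (A : ℝ) (hf : Continuous f) (hg : Continuous g)
    (h : ∀ t, g t ^ 2 ≤ f t ^ 2) (hM : Mom f A) : Mom g A := by
  intro ε hε
  obtain ⟨C, hC⟩ := hM ε hε
  refine ⟨C, fun T hT => le_trans ?_ (hC T hT)⟩
  exact intervalIntegral.integral_mono_on (by linarith) ((hg.pow 2).intervalIntegrable _ _)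
    ((hf.pow 2).intervalIntegrable _ _) fun t _ => h t

theorem ps_sq (g : ℝ → ℝ) (t : ℝ) : ps g t ^ 2 ≤ g t ^ 2 := by
  unfold ps
  rcases le_total (g t) 0 with h | h
  · rw [max_eq_right h]
    nlinarith [sq_nonneg (g t)]
  · rw [max_eq_left h]

theorem ng_sq (g : ℝ → ℝ) (t : ℝ) : ng g t ^ 2 ≤ g t ^ 2 := by
  unfold ng
  rcases le_total (g t) 0 with h | h
  · rw [max_eq_left (by linarith)]
    nlinarith
  · rw [max_eq_right (by linarith)]
    nlinarith [sq_nonneg (g t)]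

/-- Module GEN2. -/
theorem t_GEN2 : S_BC2 → S_SUP → S_PT → S_GEN2 := by
  intro hBC hSUP hPT f A hf h0 hA hM hMd
  have hfc : Continuous f := hf.continuous
  have hdc : Continuous (deriv f) := hf.continuous_deriv le_rfl
  have hpc : Continuous (ps (deriv f)) := hdc.max continuous_const
  have hnc : Continuous (ng (deriv f)) := hdc.neg.max continuous_const
  have hp0 : ∀ t, 0 ≤ ps (deriv f) t := fun t => le_max_right _ _
  have hn0 : ∀ t, 0 ≤ ng (deriv f) t := fun t => le_max_right _ _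
  have hpM : Mom (ps (deriv f)) A := mom_le (deriv f) _ A hdc hpc (ps_sq _) hMd
  have hnM : Mom (ng (deriv f)) A := mom_le (deriv f) _ A hdc hnc (ng_sq _) hMd
  have h1 : ∀ g : ℝ → ℝ, Continuous g → (∀ t, 0 ≤ g t) → Mom g A → ∀ᵐ α : ℝ, 0 < α →
      ∀ ε : ℝ, 0 < ε → ∃ C : ℝ, ∀ y : ℕ, 1 ≤ y →
        ∫ b in (0:ℝ)..α, |dd g 0 y α b| ≤ C * (y : ℝ) ^ (A / 2 + ε) := by
    intro g hg hg0 hgM
    have h2 : ∀ i : ℤ, ∀ᵐ α : ℝ, α ∈ Icc ((2:ℝ) ^ i) (2 * (2:ℝ) ^ i) →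
        ∀ ε : ℝ, 0 < ε → ∃ C : ℝ, ∀ y : ℕ, 1 ≤ y →
          ∫ b in (0:ℝ)..α, |dd g 0 y α b| ≤ C * (y : ℝ) ^ (A / 2 + ε) := fun i =>
      (ae_restrict_iff' measurableSet_Icc).1 (hBC g A hg hg0 hA hgM ((2:ℝ) ^ i) (by positivity))
    filter_upwards [ae_all_iff.2 h2] with α hα hα0
    obtain ⟨i, hi1, hi2⟩ := exists_mem_Ico_zpow hα0 (by norm_num : (1:ℝ) < 2)
    apply hα i
    refine ⟨hi1, ?_⟩
    rw [zpow_add_one₀ (by norm_num)] at hi2
    linarith
  filter_upwards [h1 _ hpc hp0 hpM, h1 _ hnc hn0 hnM] with α h2 h3 hα B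
  apply det2 f A hfc h0 hA hM α B hα
  intro ε hε
  obtain ⟨C1, hC1⟩ := h2 hα ε hε
  obtain ⟨C2, hC2⟩ := h3 hα ε hε
  obtain ⟨C3, hC3⟩ := hPT f A hf h0 hA hM hMd ε hε
  refine ⟨C1 + C2 + 2 * (f 0 + C3), fun β y hy => ?_⟩
  have hy1 : (1 : ℝ) ≤ y := by exact_mod_cast hy
  have e1 := hSUP f hf h0 y α β (by linarith) hα
  have e2 := hC1 y hy
  have e3 := hC2 y hy
  have e4 := hC3 y hy1
  have e5 : (1 : ℝ) ≤ (y : ℝ) ^ (A / 2 + ε) := Real.one_le_rpow hy1 (by linarith)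
  have e6 : f 0 ≤ f 0 * (y : ℝ) ^ (A / 2 + ε) := le_mul_of_one_le_right (h0 0) e5
  calc |dd f 0 y α β| ≤ _ := e1
    _ ≤ C1 * (y : ℝ) ^ (A / 2 + ε) + C2 * (y : ℝ) ^ (A / 2 + ε) +
        2 * (f 0 * (y : ℝ) ^ (A / 2 + ε) + C3 * (y : ℝ) ^ (A / 2 + ε)) := by linarith
    _ = _ := by ring

end Pool.Agent.D0H9.DM
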